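import Pool.Agent.N757.RD.Point

/-!
# The height of the value of a rational function with integer coefficients
-/

set_option autoImplicit false

namespace Pool.Agent.N757.TL

open NumberField IsDedekindDomain Height Real Polynomial Pool.Agent.N757.RD

/-- the polynomial without the term of degree `N` -/
theorem split_top {F : ℤ[X]} {N : ℕ} (hF : F.natDegree ≤ N) (hN : 1 ≤ N) :
    ∃ F₁ : ℤ[X], F = C (F.coeff N) * X ^ N + F₁ ∧ F₁.natDegree ≤ N - 1 := by
  refine ⟨F - C (F.coeff N) * X ^ N, by ring, ?_⟩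
  rw [natDegree_le_iff_coeff_eq_zero]
  intro k hk
  rw [coeff_sub, coeff_C_mul, coeff_X_pow]
  by_cases h : k = N
  · rw [if_pos h, h]; ring
  · rw [if_neg h, mul_zero, sub_zero]
    exact coeff_eq_zero_of_natDegree_lt (by omega)

section local_bounds

variable {K : Type} [Field K] [NumberField K]

theorem fin_top {F : ℤ[X]} {N : ℕ} (hF : F.natDegree ≤ N) (hN : 1 ≤ N)
    (p : HeightOneSpectrum (𝓞 K)) {x : K} (hx : 1 < FinitePlace.mk p x)
    (hax : 1 < FinitePlace.mk p ((F.coeff N : ℤ) : K) * FinitePlace.mk p x) :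
    FinitePlace.mk p ((F.coeff N : ℤ) : K) * FinitePlace.mk p x ^ N ≤
      FinitePlace.mk p (aeval x F) := by
  obtain ⟨F₁, h1, h2⟩ := split_top hF hN
  have e1 : aeval x F = (F.coeff N : ℤ) * x ^ N + aeval x F₁ := by
    conv_lhs => rw [h1]
    simp
  have e2 : ((F.coeff N : ℤ) : K) * x ^ N = aeval x F + -aeval x F₁ := by rw [e1]; ring
  have h3 := fin_add_le p (aeval x F) (-aeval x F₁)
  rw [← e2, map_neg_eq_map, map_mul, map_pow] at h3
  have h4 : FinitePlace.mk p (aeval x F₁) ≤ FinitePlace.mk p x ^ (N - 1) := by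
    refine (fin_aeval_le p x F₁).trans ?_
    rw [max_eq_right hx.le]
    exact pow_le_pow_right₀ hx.le h2
  have h5 : FinitePlace.mk p x ^ (N - 1) <
      FinitePlace.mk p ((F.coeff N : ℤ) : K) * FinitePlace.mk p x ^ N := by
    have h6 : 0 < FinitePlace.mk p x ^ (N - 1) := by positivity
    calc FinitePlace.mk p x ^ (N - 1) = 1 * FinitePlace.mk p x ^ (N - 1) := (one_mul _).symm
      _ < (FinitePlace.mk p ((F.coeff N : ℤ) : K) * FinitePlace.mk p x) *
          FinitePlace.mk p x ^ (N - 1) := mul_lt_mul_of_pos_right hax h6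
      _ = FinitePlace.mk p ((F.coeff N : ℤ) : K) * FinitePlace.mk p x ^ N := by
          rw [mul_assoc, ← pow_succ', Nat.sub_add_cancel hN]
  rcases le_max_iff.1 h3 with h | h
  · exact h
  · linarith

omit [NumberField K] in
theorem inf_intCast (w : InfinitePlace K) (n : ℤ) : w ((n : ℤ) : K) = |(n : ℝ)| := by
  rw [← InfinitePlace.norm_embedding_eq, map_intCast]
  exact Complex.norm_intCast _

theorem inf_top {F : ℤ[X]} {N : ℕ} (hF : F.natDegree ≤ N) (hN : 1 ≤ N) (ha : F.coeff N ≠ 0) :
    ∃ R : ℝ, 1 ≤ R ∧ ∀ (K : Type) [Field K] [NumberField K] (w : InfinitePlace K) (x : K),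
      R ≤ w x → w x ^ N / 2 ≤ w (aeval x F) := by
  obtain ⟨F₁, h1, h2⟩ := split_top hF hN
  refine ⟨2 * nrm F₁, by linarith [one_le_nrm F₁], ?_⟩
  intro K _ _ w x hx
  have hn := one_le_nrm F₁
  have hx1 : 1 ≤ w x := by linarith
  have e1 : aeval x F = (F.coeff N : ℤ) * x ^ N + aeval x F₁ := by
    conv_lhs => rw [h1]
    simp
  have e2 : ((F.coeff N : ℤ) : K) * x ^ N = aeval x F + -aeval x F₁ := by rw [e1]; ring
  have h3 : w (((F.coeff N : ℤ) : K) * x ^ N) ≤ w (aeval x F) + w (aeval x F₁) := by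
    rw [e2]
    have := w.val.add_le (aeval x F) (-aeval x F₁)
    rwa [w.val.map_neg] at this
  rw [map_mul, map_pow, inf_intCast] at h3
  have h4 : w (aeval x F₁) ≤ nrm F₁ * w x ^ (N - 1) := by
    refine (inf_aeval_le w x F₁).trans ?_
    rw [max_eq_right hx1]
    exact mul_le_mul_of_nonneg_left (pow_le_pow_right₀ hx1 h2) (nrm_pos F₁).le
  have h5 : nrm F₁ * w x ^ (N - 1) ≤ w x ^ N / 2 := by
    have e3 : w x ^ N = w x * w x ^ (N - 1) := by rw [← pow_succ', Nat.sub_add_cancel hN]
    rw [e3]
    have h6 : 0 < w x ^ (N - 1) := by positivity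
    nlinarith
  have h6 : (1 : ℝ) ≤ |((F.coeff N : ℤ) : ℝ)| := by exact_mod_cast Int.one_le_abs ha
  have h7 : w x ^ N ≤ |((F.coeff N : ℤ) : ℝ)| * w x ^ N := le_mul_of_one_le_left (by positivity) h6
  linarith

end local_bounds

/-- **Lower bound for the height of `F(x) / G(x)`.** -/
theorem D_ratio_ge {F G A B : ℤ[X]} {N : ℕ} {c : ℤ} (hF : F.natDegree ≤ N) (hN : 1 ≤ N)
    (ha : F.coeff N ≠ 0) (hc : c ≠ 0) (hAB : A * F + B * G = C c) :
    ∃ C₀ : ℝ, 0 ≤ C₀ ∧ ∀ (K : Type) [Field K] [NumberField K] (x : K), aeval x G ≠ 0 →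
      N * D x ≤ D (aeval x F / aeval x G) + C₀ * dg K := by
  obtain ⟨R, hR1, hR⟩ := inf_top hF hN ha
  set a : ℤ := F.coeff N with hadef
  set M : ℕ := max A.natDegree B.natDegree with hM
  set n₀ : ℤ := c * a ^ (M + N) with hn₀
  have hn₀0 : n₀ ≠ 0 := mul_ne_zero hc (pow_ne_zero _ ha)
  set T : ℝ := (nrm A + nrm B) * R ^ (M + N) + 2 with hT
  have hTpos : 0 < (nrm A + nrm B) * R ^ (M + N) := by
    have := nrm_pos A; have := nrm_pos B; positivity
  have hT1 : 1 ≤ T := by linarith
  refine ⟨Real.log T + Real.log |(n₀ : ℝ)|, ?_, ?_⟩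
  · refine add_nonneg (Real.log_nonneg hT1) (Real.log_nonneg ?_)
    exact_mod_cast Int.one_le_abs hn₀0
  intro K _ _ x hG
  have hd := dg_pos (K := K)
  have key : (aeval x A) * (aeval x F) + (aeval x B) * (aeval x G) = (c : K) := by
    have := congrArg (aeval x) hAB
    simpa using this
  have hn₀K : ((n₀ : ℤ) : K) ≠ 0 := by exact_mod_cast hn₀0
  -- infinite places
  have hinf : ∀ w : InfinitePlace K, (N : ℝ) * log⁺ (w x) ≤
      Real.log T + log⁺ (w (aeval x F / aeval x G)) + Real.log (w (aeval x G)) := by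
    intro w
    have hGp : 0 < w (aeval x G) := w.pos_iff.2 hG
    have hm : max 1 (w x) ^ N ≤ T * max (w (aeval x F)) (w (aeval x G)) := by
      by_cases hx : R ≤ w x
      · have h1 := hR K w x hx
        rw [max_eq_right (hR1.trans hx)]
        have h2 : w (aeval x F) ≤ max (w (aeval x F)) (w (aeval x G)) := le_max_left _ _
        have h3 : 0 ≤ w (aeval x F) := apply_nonneg _ _
        have h4 : (2 : ℝ) ≤ T := by linarith
        nlinarith
      · push Not at hx
        have hmax : max 1 (w x) ≤ R := max_le hR1 hx.le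
        have hm0 : (1 : ℝ) ≤ max 1 (w x) := le_max_left _ _
        have hA : w (aeval x A) ≤ nrm A * R ^ M := by
          refine (inf_aeval_le w x A).trans (mul_le_mul_of_nonneg_left ?_ (nrm_pos A).le)
          calc max 1 (w x) ^ A.natDegree ≤ max 1 (w x) ^ M :=
                pow_le_pow_right₀ hm0 (le_max_left _ _)
            _ ≤ R ^ M := pow_le_pow_left₀ (by linarith) hmax _
        have hB : w (aeval x B) ≤ nrm B * R ^ M := by
          refine (inf_aeval_le w x B).trans (mul_le_mul_of_nonneg_left ?_ (nrm_pos B).le)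
          calc max 1 (w x) ^ B.natDegree ≤ max 1 (w x) ^ M :=
                pow_le_pow_right₀ hm0 (le_max_right _ _)
            _ ≤ R ^ M := pow_le_pow_left₀ (by linarith) hmax _
        have hcw : (1:ℝ) ≤ w ((c : ℤ) : K) := by
          rw [inf_intCast]
          exact_mod_cast Int.one_le_abs hc
        have hsum : w ((c : ℤ) : K) ≤
            w (aeval x A) * w (aeval x F) + w (aeval x B) * w (aeval x G) := by
          have h1 := w.val.add_le (aeval x A * aeval x F) (aeval x B * aeval x G)
          rw [w.val.map_mul, w.val.map_mul, key] at h1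
          exact h1
        have hF0 : 0 ≤ w (aeval x F) := apply_nonneg _ _
        have h1 : w (aeval x A) * w (aeval x F) ≤
            nrm A * R ^ M * max (w (aeval x F)) (w (aeval x G)) :=
          mul_le_mul hA (le_max_left _ _) hF0 (by have := nrm_pos A; positivity)
        have h2 : w (aeval x B) * w (aeval x G) ≤
            nrm B * R ^ M * max (w (aeval x F)) (w (aeval x G)) :=
          mul_le_mul hB (le_max_right _ _) hGp.le (by have := nrm_pos B; positivity)
        have h3 : 1 ≤ (nrm A + nrm B) * R ^ M * max (w (aeval x F)) (w (aeval x G)) := by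
          linarith
        have h4 : max 1 (w x) ^ N ≤ R ^ N := pow_le_pow_left₀ (by linarith) hmax _
        have hRN : 0 < R ^ N := by positivity
        have hmm : 0 < max (w (aeval x F)) (w (aeval x G)) := lt_max_of_lt_right hGp
        calc max 1 (w x) ^ N ≤ R ^ N * 1 := by rw [mul_one]; exact h4
          _ ≤ R ^ N * ((nrm A + nrm B) * R ^ M * max (w (aeval x F)) (w (aeval x G))) :=
              mul_le_mul_of_nonneg_left h3 hRN.le
          _ = (nrm A + nrm B) * R ^ (M + N) * max (w (aeval x F)) (w (aeval x G)) := by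
              rw [pow_add]; ring
          _ ≤ T * max (w (aeval x F)) (w (aeval x G)) :=
              mul_le_mul_of_nonneg_right (by linarith) hmm.le
    have hmul : max (w (aeval x F)) (w (aeval x G)) =
        max 1 (w (aeval x F / aeval x G)) * w (aeval x G) := by
      rw [map_div₀, max_mul_of_nonneg _ _ hGp.le, one_mul, div_mul_cancel₀ _ hGp.ne', max_comm]
    rw [hmul, ← mul_assoc] at hm
    have hm1 : 0 < max 1 (w (aeval x F / aeval x G)) := lt_max_of_lt_left one_pos
    have h5 := Real.log_le_log (by positivity) hm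
    rw [Real.log_pow, log_max_one _ (apply_nonneg _ _), Real.log_mul (by positivity) hGp.ne',
      Real.log_mul (by positivity) hm1.ne', log_max_one _ (apply_nonneg _ _)] at h5
    exact h5
  -- finite places
  have hfin : ∀ p : HeightOneSpectrum (𝓞 K), (N : ℝ) * log⁺ (FinitePlace.mk p x) ≤
      -Real.log (FinitePlace.mk p ((n₀ : ℤ) : K)) +
        log⁺ (FinitePlace.mk p (aeval x F / aeval x G)) +
        Real.log (FinitePlace.mk p (aeval x G)) := by
    intro p
    have hGp : 0 < FinitePlace.mk p (aeval x G) := FinitePlace.pos_iff.2 hG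
    have hnp : 0 < FinitePlace.mk p ((n₀ : ℤ) : K) := FinitePlace.pos_iff.2 hn₀K
    have hne : FinitePlace.mk p ((n₀ : ℤ) : K) =
        FinitePlace.mk p ((c : ℤ) : K) * FinitePlace.mk p ((a : ℤ) : K) ^ (M + N) := by
      rw [hn₀]; push_cast; rw [map_mul, map_pow]
    have hc1 := fin_intCast_le (K := K) p c
    have ha1 := fin_intCast_le (K := K) p a
    have hc0 : 0 ≤ FinitePlace.mk p ((c : ℤ) : K) := apply_nonneg _ _
    have ha0 : 0 ≤ FinitePlace.mk p ((a : ℤ) : K) := apply_nonneg _ _
    have hm : FinitePlace.mk p ((n₀ : ℤ) : K) * max 1 (FinitePlace.mk p x) ^ N ≤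
        max (FinitePlace.mk p (aeval x F)) (FinitePlace.mk p (aeval x G)) := by
      have hm0 : (1 : ℝ) ≤ max 1 (FinitePlace.mk p x) := le_max_left _ _
      by_cases hx : 1 < FinitePlace.mk p x ∧
          1 < FinitePlace.mk p ((a : ℤ) : K) * FinitePlace.mk p x
      · refine le_trans ?_ (le_max_left _ _)
        have h1 := fin_top hF hN p hx.1 hx.2
        rw [max_eq_right hx.1.le]
        refine le_trans (mul_le_mul_of_nonneg_right ?_ (by positivity)) h1
        rw [hne, show M + N = (M + N - 1) + 1 by omega, pow_succ]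
        calc FinitePlace.mk p ((c : ℤ) : K) * (FinitePlace.mk p ((a : ℤ) : K) ^ (M + N - 1) *
              FinitePlace.mk p ((a : ℤ) : K)) ≤ 1 * (1 * FinitePlace.mk p ((a : ℤ) : K)) := by
              refine mul_le_mul hc1 (mul_le_mul_of_nonneg_right (pow_le_one₀ ha0 ha1) ha0)
                (by positivity) zero_le_one
          _ = _ := by ring
      · -- Bezout
        have hA : FinitePlace.mk p (aeval x A) ≤ max 1 (FinitePlace.mk p x) ^ M :=
          (fin_aeval_le p x A).trans (pow_le_pow_right₀ hm0 (le_max_left _ _))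
        have hB : FinitePlace.mk p (aeval x B) ≤ max 1 (FinitePlace.mk p x) ^ M :=
          (fin_aeval_le p x B).trans (pow_le_pow_right₀ hm0 (le_max_right _ _))
        have hsum : FinitePlace.mk p ((c : ℤ) : K) ≤ max 1 (FinitePlace.mk p x) ^ M *
            max (FinitePlace.mk p (aeval x F)) (FinitePlace.mk p (aeval x G)) := by
          rw [← key]
          refine (fin_add_le p _ _).trans (max_le ?_ ?_)
          · rw [map_mul]
            exact mul_le_mul hA (le_max_left _ _) (apply_nonneg _ _) (by positivity)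
          · rw [map_mul]
            exact mul_le_mul hB (le_max_right _ _) (apply_nonneg _ _) (by positivity)
        have hax : FinitePlace.mk p ((a : ℤ) : K) * max 1 (FinitePlace.mk p x) ≤ 1 := by
          rcases le_or_gt (FinitePlace.mk p x) 1 with h | h
          · rw [max_eq_left h, mul_one]; exact ha1
          · rw [max_eq_right h.le]
            by_contra hcon
            exact hx ⟨h, not_le.1 hcon⟩
        have h1 : (FinitePlace.mk p ((a : ℤ) : K) * max 1 (FinitePlace.mk p x)) ^ (M + N) ≤ 1 :=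
          pow_le_one₀ (by positivity) hax
        have hmp : 0 < max 1 (FinitePlace.mk p x) ^ M := by positivity
        have h2 : (FinitePlace.mk p ((n₀ : ℤ) : K) * max 1 (FinitePlace.mk p x) ^ N) *
            max 1 (FinitePlace.mk p x) ^ M ≤
            max (FinitePlace.mk p (aeval x F)) (FinitePlace.mk p (aeval x G)) *
              max 1 (FinitePlace.mk p x) ^ M := by
          calc (FinitePlace.mk p ((n₀ : ℤ) : K) * max 1 (FinitePlace.mk p x) ^ N) *
              max 1 (FinitePlace.mk p x) ^ M = FinitePlace.mk p ((c : ℤ) : K) *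
                (FinitePlace.mk p ((a : ℤ) : K) * max 1 (FinitePlace.mk p x)) ^ (M + N) := by
                rw [hne, mul_pow, pow_add (max 1 (FinitePlace.mk p x))]; ring
            _ ≤ FinitePlace.mk p ((c : ℤ) : K) * 1 := mul_le_mul_of_nonneg_left h1 hc0
            _ = FinitePlace.mk p ((c : ℤ) : K) := mul_one _
            _ ≤ _ := hsum
            _ = _ := mul_comm _ _
        exact le_of_mul_le_mul_right h2 hmp
    have hmul : max (FinitePlace.mk p (aeval x F)) (FinitePlace.mk p (aeval x G)) =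
        max 1 (FinitePlace.mk p (aeval x F / aeval x G)) * FinitePlace.mk p (aeval x G) := by
      rw [map_div₀, max_mul_of_nonneg _ _ hGp.le, one_mul, div_mul_cancel₀ _ hGp.ne', max_comm]
    rw [hmul] at hm
    have hm1 : 0 < max 1 (FinitePlace.mk p (aeval x F / aeval x G)) := lt_max_of_lt_left one_pos
    have hm2 : 0 < max 1 (FinitePlace.mk p x) := lt_max_of_lt_left one_pos
    have h5 := Real.log_le_log (by positivity) hm
    rw [Real.log_mul hnp.ne' (by positivity), Real.log_pow, log_max_one _ (apply_nonneg _ _),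
      Real.log_mul hm1.ne' hGp.ne', log_max_one _ (apply_nonneg _ _)] at h5
    linarith
  -- sum
  have hsum1 : ∑ w : InfinitePlace K, (w.mult : ℝ) * ((N : ℝ) * log⁺ (w x)) ≤
      ∑ w : InfinitePlace K, (w.mult : ℝ) * (Real.log T + log⁺ (w (aeval x F / aeval x G)) +
        Real.log (w (aeval x G))) :=
    Finset.sum_le_sum fun w _ => mul_le_mul_of_nonneg_left (hinf w) (Nat.cast_nonneg _)
  have hs1 := supp_posLog x
  have hs2 := supp_log hn₀K
  have hs3 := supp_posLog (aeval x F / aeval x G)
  have hs4 := supp_log hG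
  have hs2' : (Function.support fun v : HeightOneSpectrum (𝓞 K) =>
      -Real.log (FinitePlace.mk v ((n₀ : ℤ) : K))).Finite := by
    rwa [Function.support_fun_neg]
  have hs5 : (Function.support fun v : HeightOneSpectrum (𝓞 K) =>
      -Real.log (FinitePlace.mk v ((n₀ : ℤ) : K)) +
        log⁺ (FinitePlace.mk v (aeval x F / aeval x G))).Finite :=
    (hs2'.union hs3).subset (Function.support_add _ _)
  have hsum2 : ∑ᶠ v : HeightOneSpectrum (𝓞 K), (N : ℝ) * log⁺ (FinitePlace.mk v x) ≤
      ∑ᶠ v : HeightOneSpectrum (𝓞 K), (-Real.log (FinitePlace.mk v ((n₀ : ℤ) : K)) +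
        log⁺ (FinitePlace.mk v (aeval x F / aeval x G)) +
        Real.log (FinitePlace.mk v (aeval x G))) := by
    refine finsum_le_finsum' ?_ ?_ (fun v => hfin v)
    · refine hs1.subset fun v hv h => hv ?_
      have h' : log⁺ (FinitePlace.mk v x) = 0 := h
      simp only
      rw [h', mul_zero]
    · exact (hs5.union hs4).subset (Function.support_add _ _)
  rw [finsum_add_distrib hs5 hs4, finsum_add_distrib hs2' hs3] at hsum2
  have e1 : ∑ᶠ v : HeightOneSpectrum (𝓞 K), (N : ℝ) * log⁺ (FinitePlace.mk v x) =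
      N * ∑ᶠ v : HeightOneSpectrum (𝓞 K), log⁺ (FinitePlace.mk v x) := by
    rw [← smul_eq_mul, smul_finsum' (N : ℝ) hs1]
    rfl
  have e2 : ∑ᶠ v : HeightOneSpectrum (𝓞 K), -Real.log (FinitePlace.mk v ((n₀ : ℤ) : K)) =
      -∑ᶠ v : HeightOneSpectrum (𝓞 K), Real.log (FinitePlace.mk v ((n₀ : ℤ) : K)) :=
    finsum_neg_distrib _
  have e3 := product_formula hn₀K
  have e4 := product_formula hG
  have e5 : ∑ w : InfinitePlace K, (w.mult : ℝ) * Real.log (w ((n₀ : ℤ) : K)) =
      Real.log |(n₀ : ℝ)| * dg K := by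
    rw [← sum_mult, mul_comm, Finset.sum_mul]
    refine Finset.sum_congr rfl fun w _ => ?_
    rw [inf_intCast]
  have e6 : ∑ w : InfinitePlace K, (w.mult : ℝ) * ((N : ℝ) * log⁺ (w x)) =
      N * ∑ w : InfinitePlace K, (w.mult : ℝ) * log⁺ (w x) := by
    rw [Finset.mul_sum]
    exact Finset.sum_congr rfl fun w _ => by ring
  have e7 : ∑ w : InfinitePlace K, (w.mult : ℝ) * (Real.log T +
      log⁺ (w (aeval x F / aeval x G)) + Real.log (w (aeval x G))) =
      Real.log T * dg K + ∑ w : InfinitePlace K, (w.mult : ℝ) * log⁺ (w (aeval x F / aeval x G)) +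
        ∑ w : InfinitePlace K, (w.mult : ℝ) * Real.log (w (aeval x G)) := by
    rw [← sum_mult, Finset.mul_sum, ← Finset.sum_add_distrib, ← Finset.sum_add_distrib]
    exact Finset.sum_congr rfl fun w _ => by ring
  rw [D_eq x, D_eq (aeval x F / aeval x G)]
  rw [e1, e2] at hsum2
  rw [e6, e7] at hsum1
  rw [e5] at e3
  nlinarith

/-- **Upper bound.** -/
theorem D_ratio_le {F G : ℤ[X]} {N : ℕ} (hF : F.natDegree ≤ N) (hG : G.natDegree ≤ N) :
    ∃ C₀ : ℝ, 0 ≤ C₀ ∧ ∀ (K : Type) [Field K] [NumberField K] (x : K), aeval x G ≠ 0 →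
      D (aeval x F / aeval x G) ≤ 2 * N * D x + C₀ * dg K := by
  refine ⟨Real.log (nrm F) + Real.log (nrm G), add_nonneg (log_nrm_nonneg _) (log_nrm_nonneg _), ?_⟩
  intro K _ _ x h
  have hD := D_nonneg x
  have h1 : D (aeval x F / aeval x G) ≤ D (aeval x F) + D (aeval x G)⁻¹ := by
    rw [div_eq_mul_inv]; exact logHeight₁_mul_le _ _
  rw [D_inv] at h1
  have h2 := D_aeval_le x F
  have h3 := D_aeval_le x G
  have h4 : (F.natDegree : ℝ) * D x ≤ N * D x :=
    mul_le_mul_of_nonneg_right (by exact_mod_cast hF) hD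
  have h5 : (G.natDegree : ℝ) * D x ≤ N * D x :=
    mul_le_mul_of_nonneg_right (by exact_mod_cast hG) hD
  nlinarith

end Pool.Agent.N757.TL
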