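import Pool.Agent.N757.TL.Tr
import Pool.Agent.N757.RD.Reduce

/-!
# From the twisted line to the line minus three points, and back
-/

set_option autoImplicit false

namespace Pool.Agent.N757.TL

open NumberField IsDedekindDomain Height Real Polynomial Pool.Agent.N757.RD

variable {K : Type} [Field K] [NumberField K]

theorem cover_A {e : ℕ} (he : 1 ≤ e) {s : ℤ} (hs : s ^ 2 = 1) (S : Finset (Pl K))
    (h : TWn (((s * (4 * e + 1) : ℤ)) : K) S) : TWn ((s : ℤ) : K) S := by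
  have hs0 : s ≠ 0 := by rintro rfl; norm_num at hs
  have hm : s * (4 * (e : ℤ) + 1) ≠ 0 := mul_ne_zero hs0 (by omega)
  have h1 : TWn ((((2 * e + 1 : ℤ)) ^ 2 * s : ℤ) : K) S := by
    refine TWn_cover hm (t := e) he S (a := -(4 * (e : ℤ) + 1)) ?_ ?_ h
    · refine ⟨-(4 * (e : ℤ) + 1), ?_⟩
      linear_combination (4 * (e : ℤ) + 1) ^ 2 * hs
    · intro x
      unfold QP
      rw [map_add, map_mul, aeval_C, map_pow, aeval_X, aeval_C]
      push_cast
      simp only [algebraMap_int_eq, eq_intCast]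
      push_cast
      ring
  refine TWn_scale (z := ((2 * e + 1 : ℤ) : K)) ?_ S ?_
  · have : (2 * (e : ℤ) + 1) ≠ 0 := by omega
    exact_mod_cast this
  · push_cast at h1 ⊢
    exact h1

theorem cover_B {e : ℕ} (he : 1 ≤ e) {s : ℤ} (hs : s ^ 2 = 1) (S : Finset (Pl K))
    (h : TWn (((s * (4 * e - 1) : ℤ)) : K) S) : TWn ((-s : ℤ) : K) S := by
  have hs0 : s ≠ 0 := by rintro rfl; norm_num at hs
  have hm : s * (4 * (e : ℤ) - 1) ≠ 0 := mul_ne_zero hs0 (by omega)
  obtain ⟨t, rfl⟩ : ∃ t, e = t + 1 := ⟨e - 1, by omega⟩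
  have h1 : TWn ((((2 * t + 1 : ℤ)) ^ 2 * -s : ℤ) : K) S := by
    refine TWn_cover hm (t := t) he S (a := 4 * ((t + 1 : ℕ) : ℤ) - 1) ?_ ?_ h
    · refine ⟨4 * ((t + 1 : ℕ) : ℤ) - 1, ?_⟩
      linear_combination (4 * ((t + 1 : ℕ) : ℤ) - 1) ^ 2 * hs
    · intro x
      unfold QP
      rw [map_add, map_mul, aeval_C, map_pow, aeval_X, aeval_C]
      push_cast
      simp only [algebraMap_int_eq, eq_intCast]
      push_cast
      ring
  refine TWn_scale (z := ((2 * t + 1 : ℤ) : K)) ?_ S ?_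
  · have : (2 * (t : ℤ) + 1) ≠ 0 := by omega
    exact_mod_cast this
  · push_cast at h1 ⊢
    exact h1

theorem av_nat_le (v : Pl K) (n : ℕ) : av v (n : K) ≤ n := by
  induction n with
  | zero => simp
  | succ n ih =>
    push_cast
    have := (av v).add_le (n : K) 1
    rw [(av v).map_one] at this
    linarith

theorem finite_two : {p : HeightOneSpectrum (𝓞 K) | FinitePlace.mk p (2 : K) ≠ 1}.Finite :=
  finite_ne_one two_ne_zero

theorem mk_two_pow {p : HeightOneSpectrum (𝓞 K)} (h : FinitePlace.mk p (2 : K) = 1) :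
    FinitePlace.mk p (4 : K) = 1 := by
  rw [show (4 : K) = 2 * 2 by norm_num, map_mul, h, one_mul]

theorem near_zero {P : K → Prop} {f : K → K} (S : Finset (Pl K))
    (h : ∀ v ∈ S, ∀ B : ℝ, 0 < B → ∃ r : ℝ, 0 < r ∧ ∀ y, P y → y ≠ 0 → av v y < r →
      B ≤ av v (f y)) {δ : ℝ} (hδ : 0 < δ) :
    ∃ δ' : ℝ, 0 < δ' ∧ ∀ y, P y → y ≠ 0 → (∀ v ∈ S, av v y < δ') → ∀ v ∈ S, 1 ≤ δ * av v (f y) := by
  classical
  have h' : ∀ v : Pl K, ∃ r : ℝ, 0 < r ∧ (v ∈ S → ∀ y, P y → y ≠ 0 → av v y < r →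
      δ⁻¹ ≤ av v (f y)) := by
    intro v
    by_cases hv : v ∈ S
    · obtain ⟨r, hr0, hr⟩ := h v hv δ⁻¹ (by positivity)
      exact ⟨r, hr0, fun _ => hr⟩
    · exact ⟨1, one_pos, fun h => absurd h hv⟩
  choose r hr0 hr using h'
  set T : ℝ := ∑ v ∈ S, (r v)⁻¹ + 1 with hT
  have hT0 : 0 < T := by
    have : 0 ≤ ∑ v ∈ S, (r v)⁻¹ := Finset.sum_nonneg fun v _ => (inv_pos.2 (hr0 v)).le
    linarith
  refine ⟨T⁻¹, by positivity, fun y hy hy0 hn v hv => ?_⟩
  have h4 : (r v)⁻¹ ≤ ∑ v ∈ S, (r v)⁻¹ := Finset.single_le_sum (f := fun v => (r v)⁻¹)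
    (fun v _ => (inv_pos.2 (hr0 v)).le) hv
  have h5 : T⁻¹ ≤ r v := by
    rw [inv_le_comm₀ hT0 (hr0 v)]
    linarith
  have h6 := hr v hv y hy hy0 ((hn v hv).trans_le h5)
  rwa [inv_le_iff_one_le_mul₀ hδ, mul_comm] at h6

theorem from_one (S : Finset (Pl K)) (h : TWn ((1 : ℤ) : K) S) : ABn S := by
  obtain ⟨δ, hδ, h⟩ := h
  have h20 : (2 : K) ≠ 0 := two_ne_zero
  obtain ⟨δ₁, hδ₁, hn⟩ := near_zero (P := fun _ : K => True) (f := fun y => 2 / y - 1) S
    (fun v _ B hB => by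
      have hz' : 0 < av v (2 : K) := (av v).pos h20
      refine ⟨av v (2 : K) / (B + 1), by positivity, fun y _ hy0 hy => ?_⟩
      have hyp : 0 < av v y := (av v).pos hy0
      have h1 := (av v).add_le (2 / y - 1) 1
      rw [sub_add_cancel, (av v).map_one, map_div₀] at h1
      rw [lt_div_iff₀ (by positivity)] at hy
      have h2 : B + 1 ≤ av v (2 : K) / av v y := by
        rw [le_div_iff₀ hyp]; linarith
      linarith) hδ
  have hf2 := finite_two (K := K)
  set W2 : ℝ := W {p : HeightOneSpectrum (𝓞 K) | FinitePlace.mk p (2 : K) ≠ 1} with hW2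
  have hW20 : 0 ≤ W2 := W_nonneg _
  have hd := dg_pos (K := K)
  have hl2 : 0 ≤ Real.log 2 := Real.log_nonneg (by norm_num)
  set L : ℝ := Real.log (nrm (X + 1 : ℤ[X])) with hL
  have hL0 : 0 ≤ L := log_nrm_nonneg _
  refine ⟨δ₁, hδ₁, step (h := D) (r := R) (N := 1) (C := W2 + dg K * Real.log 2 + L * dg K)
    D_nonneg R_nonneg le_rfl (by positivity) ?_ h⟩
  rintro y ⟨y0, y1, hy⟩
  right
  have e1 : (2 / y - 1) ^ 2 - 1 = 2 * 2 * (1 - y) / y ^ 2 := by field_simp; ring
  have hy1 : (1 : K) - y ≠ 0 := sub_ne_zero.2 y1.symm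
  have hne : (2 / y - 1) ^ 2 ≠ ((1 : ℤ) : K) := by
    rw [Int.cast_one, ← sub_ne_zero, e1]
    exact div_ne_zero (mul_ne_zero (mul_ne_zero h20 h20) hy1) (pow_ne_zero _ y0)
  refine ⟨2 / y - 1, ⟨hne, hn y trivial y0 hy⟩, ?_, ?_⟩
  · -- `y = 2 / (x + 1)`
    have h1 : D y ≤ D (2 : K) + D ((2 / y - 1) + 1) := by
      have e2 : y = 2 * ((2 / y - 1) + 1)⁻¹ := by
        rw [sub_add_cancel]; field_simp
      have h3 : D (2 * ((2 / y - 1) + 1)⁻¹) ≤ D (2 : K) + D (((2 / y - 1) + 1)⁻¹) :=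
        logHeight₁_mul_le _ _
      rw [← e2, D_inv] at h3
      exact h3
    have h2 := D_two (K := K)
    have h3 := D_aeval_le (2 / y - 1) (X + 1 : ℤ[X])
    have e3 : aeval (2 / y - 1) (X + 1 : ℤ[X]) = (2 / y - 1) + 1 := by simp
    have e4 : (X + 1 : ℤ[X]).natDegree ≤ 1 := by compute_degree
    rw [e3] at h3
    have h5 : ((X + 1 : ℤ[X]).natDegree : ℝ) * D (2 / y - 1) ≤ 1 * D (2 / y - 1) :=
      mul_le_mul_of_nonneg_right (by exact_mod_cast e4) (D_nonneg _)
    linarith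
  · have hsub : IK ((1 : ℤ) : K) (2 / y - 1) ⊆ I y ∪
        {p : HeightOneSpectrum (𝓞 K) | FinitePlace.mk p (2 : K) ≠ 1} := by
      intro p hp
      by_cases hp2 : FinitePlace.mk p (2 : K) = 1
      swap
      · exact Or.inr hp2
      left
      by_contra hcon
      simp only [I, Set.mem_ofPred_eq, not_or, not_not] at hcon
      obtain ⟨h2, h3⟩ := hcon
      rcases hp with h4 | h4
      · have h5 := fin_add_le p (2 / y) (-1)
        rw [← sub_eq_add_neg, map_neg_eq_map, map_div₀, hp2, h2, map_one] at h5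
        have h6 : max ((1 : ℝ) / 1) 1 = 1 := by norm_num
        rw [h6] at h5
        linarith
      · rw [Int.cast_one, e1, map_div₀, map_mul, map_mul, map_pow, hp2, h3, h2] at h4
        norm_num at h4
    have f1 := finite_I y0 y1
    have h3 := W_mono hsub (f1.union hf2)
    have h4 := W_union f1 hf2
    have e : (1 : ℝ) - 1 = 0 := by norm_num
    rw [e, zero_mul, add_zero]
    have h5 : 0 ≤ dg K * Real.log 2 + L * dg K := by positivity
    change W _ ≤ W (I y) + _
    linarith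

/-- the polynomials of the fourth power map -/
noncomputable def F4 : ℤ[X] := X ^ 4 - 6 * X ^ 2 + 1

/-- the polynomials of the fourth power map -/
noncomputable def G4 : ℤ[X] := 4 * X ^ 3 - 4 * X

theorem eval_F4 (y : K) : aeval y F4 = y ^ 4 - 6 * y ^ 2 + 1 := by
  unfold F4
  rw [map_add, map_sub, map_pow, map_mul, map_pow, aeval_X, map_one, map_ofNat]

theorem eval_G4 (y : K) : aeval y G4 = 4 * (y * (y ^ 2 - 1)) := by
  unfold G4
  rw [map_sub, map_mul, map_mul, map_pow, aeval_X, map_ofNat]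
  ring

theorem F4_deg : F4.natDegree ≤ 4 := by unfold F4; compute_degree

theorem F4_coeff : F4.coeff 4 ≠ 0 := by
  have : F4.coeff 4 = 1 := by unfold F4; compute_degree!
  rw [this]; exact one_ne_zero

theorem bezout4 : (16 - 20 * X ^ 2) * F4 + (5 * X ^ 3 - 29 * X) * G4 = C (16 : ℤ) := by
  unfold F4 G4
  rw [show (C (16 : ℤ) : ℤ[X]) = 16 by simp]
  ring

theorem from_neg_one (S : Finset (Pl K)) (h : TWn ((-1 : ℤ) : K) S) : ABn S := by
  obtain ⟨δ, hδ, h⟩ := h
  have h20 : (2 : K) ≠ 0 := two_ne_zero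
  have h40 : (4 : K) ≠ 0 := by norm_num
  obtain ⟨C1, hC1, hge⟩ := D_ratio_ge F4_deg (by norm_num) F4_coeff (by norm_num) bezout4
  obtain ⟨δ₁, hδ₁, hn⟩ := near_zero (P := fun y : K => aeval y G4 ≠ 0)
    (f := fun y => aeval y F4 / aeval y G4) S
    (fun v _ B hB => by
      refine ⟨min (1 / 8) (1 / (16 * B)), by positivity, fun y hy hy0 hyr => ?_⟩
      have hr1 : av v y < 1 / 8 := hyr.trans_le (min_le_left _ _)
      have hr2 : av v y < 1 / (16 * B) := hyr.trans_le (min_le_right _ _)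
      have hy' : 0 < av v y := (av v).pos hy0
      have hGp : 0 < av v (aeval y G4) := (av v).pos hy
      have h6 : av v (6 : K) ≤ 6 := by exact_mod_cast av_nat_le v 6
      have h4 : av v (4 : K) ≤ 4 := by exact_mod_cast av_nat_le v 4
      have hF : 1 / 2 ≤ av v (aeval y F4) := by
        rw [eval_F4]
        have e1 : (1 : K) = (y ^ 4 - 6 * y ^ 2 + 1) + (6 * y ^ 2 + -y ^ 4) := by ring
        have h1 : av v (1 : K) ≤ av v (y ^ 4 - 6 * y ^ 2 + 1) + av v (6 * y ^ 2 + -y ^ 4) := by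
          conv_lhs => rw [e1]
          exact (av v).add_le _ _
        have h2 := (av v).add_le (6 * y ^ 2) (-y ^ 4)
        rw [(av v).map_neg, map_mul, map_pow, map_pow] at h2
        rw [(av v).map_one] at h1
        have h3 : av v y ^ 2 ≤ (1 / 8) ^ 2 := pow_le_pow_left₀ hy'.le hr1.le 2
        have h5 : av v y ^ 4 ≤ (1 / 8) ^ 4 := pow_le_pow_left₀ hy'.le hr1.le 4
        have h7 : av v (6 : K) * av v y ^ 2 ≤ 6 * (1 / 8) ^ 2 :=
          mul_le_mul h6 h3 (by positivity) (by norm_num)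
        norm_num at h3 h5 h7
        linarith
      have hG : av v (aeval y G4) ≤ 8 * av v y := by
        rw [eval_G4, map_mul, map_mul]
        have h1 := abv_sub_le (α := av v) (y ^ 2) 1
        rw [(av v).map_one, map_pow] at h1
        have h3 : av v y ^ 2 ≤ (1 / 8) ^ 2 := pow_le_pow_left₀ hy'.le hr1.le 2
        have h5 : av v (y ^ 2 - 1) ≤ 2 := by norm_num at h3; linarith
        calc av v (4 : K) * (av v y * av v (y ^ 2 - 1)) ≤ 4 * (av v y * 2) :=
              mul_le_mul h4 (mul_le_mul_of_nonneg_left h5 hy'.le) (by positivity) (by norm_num)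
          _ = 8 * av v y := by ring
      rw [map_div₀, le_div_iff₀ hGp]
      rw [lt_div_iff₀ (by positivity)] at hr2
      nlinarith) hδ
  have hf2 := finite_two (K := K)
  set W2 : ℝ := W {p : HeightOneSpectrum (𝓞 K) | FinitePlace.mk p (2 : K) ≠ 1} with hW2
  have hW20 : 0 ≤ W2 := W_nonneg _
  have hd := dg_pos (K := K)
  set L1 : ℝ := Real.log (nrm (X + 1 : ℤ[X])) with hL1
  set L2 : ℝ := Real.log (nrm (X ^ 2 + 1 : ℤ[X])) with hL2
  have hL10 : 0 ≤ L1 := log_nrm_nonneg _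
  have hL20 : 0 ≤ L2 := log_nrm_nonneg _
  refine ⟨δ₁, hδ₁, step (h := D) (r := R) (N := 4) (C := W2 + C1 * dg K + L1 * dg K + L2 * dg K)
    D_nonneg R_nonneg (by norm_num) (by positivity) ?_ h⟩
  rintro y ⟨y0, y1, hy⟩
  by_cases hm1 : y = -1
  · left
    have : D y = 0 := D_eq_zero_of_pow (n := 2) (by norm_num) (by rw [hm1]; norm_num)
    rw [this]; positivity
  by_cases hi : y ^ 2 + 1 = 0
  · left
    have : D y = 0 := by
      refine D_eq_zero_of_pow (n := 4) (by norm_num) ?_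
      have : y ^ 4 = 1 + (y ^ 2 + 1) * (y ^ 2 - 1) := by ring
      rw [this, hi]; ring
    rw [this]; positivity
  right
  have hy1 : y - 1 ≠ 0 := sub_ne_zero.2 y1
  have hyp1 : y + 1 ≠ 0 := fun h => hm1 (by linear_combination h)
  have hG0 : aeval y G4 ≠ 0 := by
    rw [eval_G4]
    have : y ^ 2 - 1 = (y - 1) * (y + 1) := by ring
    rw [this]
    exact mul_ne_zero h40 (mul_ne_zero y0 (mul_ne_zero hy1 hyp1))
  have e1 : (aeval y F4 / aeval y G4) ^ 2 - ((-1 : ℤ) : K) =
      (y ^ 2 + 1) ^ 4 / (aeval y G4) ^ 2 := by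
    have : aeval y F4 ^ 2 + aeval y G4 ^ 2 = (y ^ 2 + 1) ^ 4 := by rw [eval_F4, eval_G4]; ring
    rw [← this]
    push_cast
    field_simp
    ring
  have hne : (aeval y F4 / aeval y G4) ^ 2 ≠ ((-1 : ℤ) : K) := by
    rw [← sub_ne_zero, e1]
    exact div_ne_zero (pow_ne_zero _ hi) (pow_ne_zero _ hG0)
  refine ⟨aeval y F4 / aeval y G4, ⟨hne, hn y hG0 y0 hy⟩, ?_, ?_⟩
  · have := hge K y hG0
    push_cast at this
    have h5 : 0 ≤ L1 * dg K := by positivity
    have h6 : 0 ≤ L2 * dg K := by positivity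
    linarith
  · have hsub : IK ((-1 : ℤ) : K) (aeval y F4 / aeval y G4) ⊆ I y ∪ (lows (y + 1) ∪
        (lows (y ^ 2 + 1) ∪ {p : HeightOneSpectrum (𝓞 K) | FinitePlace.mk p (2 : K) ≠ 1})) := by
      intro p hp
      by_cases hp2 : FinitePlace.mk p (2 : K) = 1
      swap
      · exact Or.inr (Or.inr (Or.inr hp2))
      have hp4 := mk_two_pow hp2
      by_cases hpI : p ∈ I y
      · exact Or.inl hpI
      right
      simp only [I, Set.mem_ofPred_eq, not_or, not_not] at hpI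
      obtain ⟨h2, h3⟩ := hpI
      have hint : ∀ P : ℤ[X], FinitePlace.mk p (aeval y P) ≤ 1 := by
        intro P
        have := fin_aeval_le p y P
        rwa [h2, max_self, one_pow] at this
      by_cases hp1 : FinitePlace.mk p (y + 1) < 1
      · exact Or.inl hp1
      have hp1' : FinitePlace.mk p (y + 1) = 1 := by
        refine le_antisymm ?_ (not_lt.1 hp1)
        have := hint (X + 1)
        simpa using this
      have hGv : FinitePlace.mk p (aeval y G4) = 1 := by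
        have e2 : aeval y G4 = -(4 * (y * ((1 - y) * (y + 1)))) := by rw [eval_G4]; ring
        rw [e2, map_neg_eq_map, map_mul, map_mul, map_mul, hp4, h2, h3, hp1']
        norm_num
      right; left
      rcases hp with h4 | h4
      · rw [map_div₀, hGv, div_one] at h4
        exact absurd h4 (not_lt.2 (hint _))
      · rw [e1, map_div₀, map_pow, map_pow, hGv, one_pow, div_one] at h4
        change FinitePlace.mk p (y ^ 2 + 1) < 1
        by_contra hcon
        have := one_le_pow₀ (not_lt.1 hcon) (n := 4)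
        linarith
    have f1 := finite_I y0 y1
    have f2 := finite_lows hyp1
    have f3 := finite_lows hi
    have h3 := W_mono hsub (f1.union (f2.union (f3.union hf2)))
    have h4 := W_union f1 (f2.union (f3.union hf2))
    have h5 := W_union f2 (f3.union hf2)
    have h6 := W_union f3 hf2
    have h7 := W_lows_le hyp1
    have h8 := W_lows_le hi
    have h9 := D_aeval_le y (X + 1 : ℤ[X])
    have e3 : aeval y (X + 1 : ℤ[X]) = y + 1 := by simp
    have e4 : (X + 1 : ℤ[X]).natDegree ≤ 1 := by compute_degree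
    rw [e3] at h9
    have h10 := D_aeval_le y (X ^ 2 + 1 : ℤ[X])
    have e5 : aeval y (X ^ 2 + 1 : ℤ[X]) = y ^ 2 + 1 := by simp
    have e6 : (X ^ 2 + 1 : ℤ[X]).natDegree ≤ 2 := by compute_degree
    rw [e5] at h10
    have hD := D_nonneg y
    have h11 : ((X + 1 : ℤ[X]).natDegree : ℝ) * D y ≤ 1 * D y :=
      mul_le_mul_of_nonneg_right (by exact_mod_cast e4) hD
    have h12 : ((X ^ 2 + 1 : ℤ[X]).natDegree : ℝ) * D y ≤ 2 * D y :=
      mul_le_mul_of_nonneg_right (by exact_mod_cast e6) hD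
    have h13 : 0 ≤ C1 * dg K := by positivity
    have e7 : R y = W (I y) := rfl
    rw [e7]
    linarith

/-- from the neighbourhood of one cusp to all points -/
theorem ABn_to_ABC (S : Finset (Pl K)) (h : ABn S) : ABC K := by
  obtain ⟨δ, hδ, h⟩ := h
  intro ε hε
  obtain ⟨ε', hε', h2⟩ := reduce_field K S δ ε 1 hδ hε one_pos 1 1 one_pos one_pos
  obtain ⟨C', hC'⟩ := h ε' hε'
  obtain ⟨C, hC⟩ := h2 C'
  refine ⟨C, fun y hy => hC (fun z z0 z1 hz _ => hC' z ⟨z0, z1, hz⟩) y hy.1 hy.2⟩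

/-- from abc to the twisted line -/
theorem ABC_to_TW {c : K} (hc : c ≠ 0) (S : Finset (Pl K)) (δ : ℝ) (h : ABC K) : TW c S δ := by
  have hfc := finite_ne_one hc
  have hDc := D_nonneg c
  set Wc : ℝ := W {p : HeightOneSpectrum (𝓞 K) | FinitePlace.mk p c ≠ 1} with hWc
  have hWc0 : 0 ≤ Wc := W_nonneg _
  refine step (h := D) (r := fun x => W (IK c x)) (N := 2) (C := Wc + D c)
    D_nonneg (fun x => W_nonneg _) (by norm_num) (by positivity) ?_ h
  rintro x ⟨hx, -⟩
  by_cases hx0 : x = 0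
  · left
    rw [hx0]
    have : D (0 : K) = 0 := logHeight₁_zero
    rw [this]; positivity
  right
  have hx2 : x ^ 2 ≠ 0 := pow_ne_zero 2 hx0
  have e1 : 1 - c / x ^ 2 = (x ^ 2 - c) / x ^ 2 := by field_simp
  have hxc : x ^ 2 - c ≠ 0 := sub_ne_zero.2 hx
  refine ⟨c / x ^ 2, ⟨div_ne_zero hc hx2, ?_⟩, ?_, ?_⟩
  · intro h1
    rw [h1, sub_self] at e1
    exact div_ne_zero hxc hx2 e1.symm
  · have h1 : D (x ^ 2) ≤ D c + D (c / x ^ 2) := by
      have e2 : x ^ 2 = c * (c / x ^ 2)⁻¹ := by field_simp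
      have h3 : D (c * (c / x ^ 2)⁻¹) ≤ D c + D ((c / x ^ 2)⁻¹) := logHeight₁_mul_le _ _
      rw [← e2, D_inv] at h3
      exact h3
    rw [D_pow] at h1
    push_cast at h1
    linarith
  · have hsub : I (c / x ^ 2) ⊆ IK c x ∪ (lows x ∪
        {p : HeightOneSpectrum (𝓞 K) | FinitePlace.mk p c ≠ 1}) := by
      intro p hp
      by_cases hpc : FinitePlace.mk p c = 1
      swap
      · exact Or.inr (Or.inr hpc)
      by_cases hpI : p ∈ IK c x
      · exact Or.inl hpI
      right; left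
      simp only [IK, Set.mem_ofPred_eq, not_or, not_lt] at hpI
      obtain ⟨h1, h2⟩ := hpI
      by_contra hcon
      have hx1 : FinitePlace.mk p x = 1 := le_antisymm h1 (not_lt.1 hcon)
      have h3 : FinitePlace.mk p (x ^ 2 - c) = 1 := by
        refine le_antisymm ?_ h2
        have := fin_add_le p (x ^ 2) (-c)
        rwa [← sub_eq_add_neg, map_neg_eq_map, map_pow, hx1, hpc, one_pow, max_self] at this
      rcases hp with h4 | h4
      · rw [map_div₀, map_pow, hpc, hx1] at h4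
        norm_num at h4
      · rw [e1, map_div₀, map_pow, h3, hx1] at h4
        norm_num at h4
    have f1 := finite_IK hx
    have f2 := finite_lows hx0
    have h3 := W_mono hsub (f1.union (f2.union hfc))
    have h4 := W_union f1 (f2.union hfc)
    have h5 := W_union f2 hfc
    have h6 := W_lows_le hx0
    change W (I (c / x ^ 2)) ≤ _
    linarith

/-- **The twisted line and the abc conjecture.** -/
theorem main {m : ℤ} (hm : Odd m) {z : K} (hz : z ≠ 0) (S : Finset (Pl K))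
    (h : TWn (z ^ 2 * ((m : ℤ) : K)) S) : ABC K := by
  have h1 : TWn ((m : ℤ) : K) S := TWn_scale hz S h
  apply ABn_to_ABC S
  have h12 : (1 : ℤ) ^ 2 = 1 := by norm_num
  have h12' : (-1 : ℤ) ^ 2 = 1 := by norm_num
  have hcases : m = 1 ∨ m = -1 ∨ (∃ e : ℕ, 1 ≤ e ∧ m = 1 * (4 * e + 1)) ∨
      (∃ e : ℕ, 1 ≤ e ∧ m = -1 * (4 * e + 1)) ∨ (∃ e : ℕ, 1 ≤ e ∧ m = 1 * (4 * e - 1)) ∨
      (∃ e : ℕ, 1 ≤ e ∧ m = -1 * (4 * e - 1)) := by
    have hodd : m.natAbs % 2 = 1 := by
      obtain ⟨k, hk⟩ := hm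
      omega
    have h4 : (m.natAbs : ℤ) = 4 * ((m.natAbs / 4 : ℕ) : ℤ) + 1 ∨
        (m.natAbs : ℤ) = 4 * ((m.natAbs / 4 + 1 : ℕ) : ℤ) - 1 := by omega
    rcases h4 with h4 | h4
    · rcases Nat.eq_zero_or_pos (m.natAbs / 4) with h0 | h0
      · rw [h0] at h4
        omega
      · rcases Int.natAbs_eq m with h5 | h5
        · exact Or.inr (Or.inr (Or.inl ⟨m.natAbs / 4, h0, by omega⟩))
        · exact Or.inr (Or.inr (Or.inr (Or.inl ⟨m.natAbs / 4, h0, by omega⟩)))
    · rcases Int.natAbs_eq m with h5 | h5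
      · exact Or.inr (Or.inr (Or.inr (Or.inr (Or.inl ⟨m.natAbs / 4 + 1, by omega, by omega⟩))))
      · exact Or.inr (Or.inr (Or.inr (Or.inr (Or.inr ⟨m.natAbs / 4 + 1, by omega, by omega⟩))))
  rcases hcases with rfl | rfl | ⟨e, he, hme⟩ | ⟨e, he, hme⟩ | ⟨e, he, hme⟩ | ⟨e, he, hme⟩
  · exact from_one S h1
  · exact from_neg_one S h1
  · rw [hme] at h1
    exact from_one S (cover_A he h12 S h1)
  · rw [hme] at h1
    exact from_neg_one S (cover_A he h12' S h1)
  · rw [hme] at h1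
    exact from_neg_one S (cover_B he h12 S h1)
  · rw [hme] at h1
    have := cover_B he h12' S h1
    rw [neg_neg] at this
    exact from_one S this

end Pool.Agent.N757.TL
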