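import Pool.Agent.N757.TL.Alg
import Pool.Agent.N757.RD.Cyclo

/-!
# The norm identity and coprimality
-/

set_option autoImplicit false

namespace Pool.Agent.N757.TL

open Polynomial

theorem pw_norm {R : Type} [CommRing R] (s u v : R) (n : ℕ) :
    (pw s u v n).1 ^ 2 - s * (pw s u v n).2 ^ 2 = (u ^ 2 - s * v ^ 2) ^ n := by
  induction n with
  | zero => simp [pw]
  | succ n ih =>
    rw [pow_succ' (u ^ 2 - s * v ^ 2), ← ih]
    simp only [pw]
    ring

theorem FV_norm {R : Type} [CommRing R] (s : R) (κ e : ℕ) (x : R) :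
    Fp s κ e x ^ 2 - s * Vp s κ e x ^ 2 =
      (x ^ 2 - s) ^ κ * ((2 * e * x) ^ 2 - s * κ ^ 2) ^ (2 * e) := by
  have h1 := pw_norm s x 1 κ
  have h2 := pw_norm s (2 * e * x) (-κ) (2 * e)
  have h3 : x ^ 2 - s = x ^ 2 - s * 1 ^ 2 := by ring
  have h4 : (2 * (e : R) * x) ^ 2 - s * κ ^ 2 = (2 * e * x) ^ 2 - s * (-κ) ^ 2 := by ring
  rw [h3, h4, ← h1, ← h2]
  unfold Fp Vp
  ring

theorem FGV (m : ℤ) (t e : ℕ) : FP m (2 * t + 1) e ^ 2 - C m * GP m t e ^ 2 =
    sP m * VP m (2 * t + 1) e ^ 2 := by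
  have h := FV_norm (sP m) (2 * t + 1) e (X : ℤ[X])
  have h1 : (X : ℤ[X]) ^ 2 - sP m = C m := by unfold sP; ring
  have h2 : (2 * (e : ℤ[X]) * X) ^ 2 - sP m * ((2 * t + 1 : ℕ) : ℤ[X]) ^ 2 = QP m (2 * t + 1) e := by
    unfold sP QP
    simp only [map_sub, map_mul, map_pow, C_ofNat, map_natCast]
    ring
  rw [h1, h2] at h
  unfold FP VP GP
  have h3 : C m * (C (m ^ t) * QP m (2 * t + 1) e ^ e) ^ 2 =
      C m ^ (2 * t + 1) * QP m (2 * t + 1) e ^ (2 * e) := by
    rw [C_pow]; ring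
  rw [h3]
  linear_combination h

theorem eval_FGV {S : Type} [CommRing S] (m : ℤ) (t e : ℕ) (x : S) :
    aeval x (FP m (2 * t + 1) e) ^ 2 - m * aeval x (GP m t e) ^ 2 =
      (x ^ 2 - m) * aeval x (VP m (2 * t + 1) e) ^ 2 := by
  have h := congrArg (aeval x) (FGV m t e)
  simpa [sP] using h

theorem cop_FQ {m : ℤ} (hm : m ≠ 0) {κ e : ℕ} (hκ : 1 ≤ κ) (he : 1 ≤ e) :
    IsCoprime ((FP m κ e).map (Int.castRingHom ℚ)) ((QP m κ e).map (Int.castRingHom ℚ)) := by
  refine (Polynomial.isCoprime_iff_aeval_ne_zero_of_isAlgClosed ℚ ℂ _ _).2 ?_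
  intro x
  by_contra hcon
  push Not at hcon
  obtain ⟨h1, h2⟩ := hcon
  have g1 : ∀ P : ℤ[X], aeval x (P.map (Int.castRingHom ℚ)) = aeval x P := by
    intro P
    rw [show Int.castRingHom ℚ = algebraMap ℤ ℚ from rfl, aeval_map_algebraMap]
  rw [g1] at h1 h2
  obtain ⟨w, hw⟩ := IsAlgClosed.exists_pow_nat_eq (x ^ 2 - (m : ℂ)) (show 0 < 2 by norm_num)
  have hm' : (m : ℂ) ≠ 0 := by exact_mod_cast hm
  have hκ' : (κ : ℂ) ≠ 0 := by exact_mod_cast (by omega : κ ≠ 0)
  have he' : (e : ℂ) ≠ 0 := by exact_mod_cast (by omega : e ≠ 0)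
  have h3 := eval_FV m κ e x w hw
  have h4 := eval_FV m κ e x (-w) (by rw [neg_sq, hw])
  rw [h1] at h3 h4
  rw [eval_QP m κ e x w hw] at h2
  have key : ∀ z : ℂ, z ^ 2 = x ^ 2 - m → (2 * e * x - κ * z : ℂ) = 0 →
      (x + -z) ^ κ * (2 * e * x - κ * -z) ^ (2 * e) ≠ 0 := by
    intro z hz h5 h6
    rcases mul_eq_zero.1 h6 with h | h
    · have h7 := pow_eq_zero_iff (by omega) |>.1 h
      have h8 : x = z := by linear_combination h7
      rw [h8] at hz
      apply hm'
      linear_combination hz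
    · have h7 := pow_eq_zero_iff (by omega) |>.1 h
      have h8 : (4 * (e : ℂ)) * x = 0 := by linear_combination h5 + h7
      have h9 : x = 0 := by
        rcases mul_eq_zero.1 h8 with h | h
        · exact absurd h (mul_ne_zero (by norm_num) he')
        · exact h
      rw [h9] at h5
      have h10 : (κ : ℂ) * z = 0 := by linear_combination -h5
      have h11 : z = 0 := by
        rcases mul_eq_zero.1 h10 with h | h
        · exact absurd h hκ'
        · exact h
      rw [h9, h11] at hz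
      apply hm'
      linear_combination hz
  rcases mul_eq_zero.1 h2 with h | h
  · have h5 : w * aeval x (VP m κ e) = 0 := by
      have : (2 * (e : ℂ) * x - κ * w) ^ (2 * e) = 0 := by
        rw [h]; exact zero_pow (by omega)
      rw [this, mul_zero, zero_add] at h3
      exact h3
    apply key w hw h
    rw [← h4]
    linear_combination -h5
  · have h5 : w * aeval x (VP m κ e) = 0 := by
      have : (2 * (e : ℂ) * x - κ * -w) ^ (2 * e) = 0 := by
        rw [show (2 * (e : ℂ) * x - κ * -w) = 2 * e * x + κ * w by ring, h]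
        exact zero_pow (by omega)
      rw [this, mul_zero, zero_add] at h4
      linear_combination -h4
    apply key (-w) (by rw [neg_sq, hw]) (by linear_combination h)
    rw [neg_neg, ← h3, h5]
    ring

theorem cop_FG {m : ℤ} (hm : m ≠ 0) {t e : ℕ} (he : 1 ≤ e) :
    ∃ (A B : ℤ[X]) (c : ℤ), c ≠ 0 ∧ A * FP m (2 * t + 1) e + B * GP m t e = C c := by
  apply Pool.Agent.N757.RD.exists_int_bezout
  unfold GP
  rw [Polynomial.map_mul, Polynomial.map_pow, Polynomial.map_C]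
  refine IsCoprime.mul_right ?_ ((cop_FQ hm (by omega) he).pow_right)
  refine isCoprime_one_right.of_isCoprime_of_dvd_right ?_
  refine ⟨C ((((m ^ t : ℤ) : ℚ))⁻¹), ?_⟩
  rw [← C_mul, eq_intCast, mul_inv_cancel₀ (by exact_mod_cast pow_ne_zero t hm), C_1]

end Pool.Agent.N757.TL
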