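import Pool.Agent.N757.TL.Cop
import Pool.Agent.N757.TL.Ht
import Pool.Agent.N757.RD.Final

/-!
# Transfer of height inequalities between twisted lines
-/

set_option autoImplicit false

namespace Pool.Agent.N757.TL

open NumberField IsDedekindDomain Height Real Polynomial Pool.Agent.N757.RD

/-- the inequality behind the transfer -/
theorem tr {N C C' ε ε' : ℝ} (hC : 0 ≤ C) (hC' : 0 ≤ C') (hε : 0 < ε) (hε' : 0 < ε')
    (h : ε' * ((1 + ε) * N) ≤ ε) {a r : ℝ} (ha : 0 ≤ a) (hr : 0 ≤ r)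
    (hx : a ≤ C ∨ ∃ b s : ℝ, N * a ≤ b + C ∧ s ≤ r + (N - 1) * a + C ∧ b ≤ (1 + ε') * s + C') :
    a ≤ (1 + ε) * r + (1 + ε) * ((3 + ε') * C + C') := by
  have hεC : 0 ≤ ε' * C := by positivity
  rcases hx with h2 | ⟨b, s, fa, fc, h3⟩
  · have e1 : 0 ≤ (1 + ε) * r := by positivity
    have e2 : C ≤ (1 + ε) * ((3 + ε') * C + C') := by nlinarith
    linarith
  · have h4 : (1 + ε') * s ≤ (1 + ε') * (r + (N - 1) * a + C) :=
      mul_le_mul_of_nonneg_left fc (by linarith)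
    obtain ⟨t, ht⟩ : ∃ t : ℝ, t = 1 - ε' * (N - 1) := ⟨_, rfl⟩
    obtain ⟨C3, hC3⟩ : ∃ C3 : ℝ, C3 = (2 + ε') * C + C' := ⟨_, rfl⟩
    have hC30 : 0 ≤ C3 := by rw [hC3]; positivity
    have h5 : a * t ≤ (1 + ε') * r + C3 := by
      rw [ht, hC3]
      nlinarith
    have h6 : 1 + ε' ≤ (1 + ε) * t := by
      rw [ht]
      nlinarith
    have h7 : a * (1 + ε') ≤ (1 + ε) * ((1 + ε') * r + C3) := by
      have e1 : a * (1 + ε') ≤ a * ((1 + ε) * t) := mul_le_mul_of_nonneg_left h6 ha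
      have e2 : (1 + ε) * (a * t) ≤ (1 + ε) * ((1 + ε') * r + C3) :=
        mul_le_mul_of_nonneg_left h5 (by linarith)
      linarith
    have h9 : a ≤ (1 + ε) * r + (1 + ε) * C3 := by
      by_contra hcon
      push Not at hcon
      have e0 : (1 + ε') * ((1 + ε) * r + (1 + ε) * C3) < (1 + ε') * a :=
        mul_lt_mul_of_pos_left hcon (by linarith)
      have e1 : 0 ≤ ε' * ((1 + ε) * C3) := by positivity
      nlinarith
    have h10 : (1 + ε) * C3 ≤ (1 + ε) * ((3 + ε') * C + C') := by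
      refine mul_le_mul_of_nonneg_left ?_ (by linarith)
      rw [hC3]
      linarith
    linarith

/-- transfer of an inequality `h ≤ (1 + ε) r + C` -/
theorem step {α β : Type} {P : α → Prop} {Q : β → Prop} {h r : α → ℝ} {h' r' : β → ℝ}
    (hh : ∀ x, 0 ≤ h x) (hr : ∀ x, 0 ≤ r x) {N C : ℝ} (hN : 1 ≤ N) (hC : 0 ≤ C)
    (map : ∀ x, P x → h x ≤ C ∨ ∃ y, Q y ∧ N * h x ≤ h' y + C ∧ r' y ≤ r x + (N - 1) * h x + C)
    (H : ∀ ε : ℝ, 0 < ε → ∃ C' : ℝ, ∀ y, Q y → h' y ≤ (1 + ε) * r' y + C') :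
    ∀ ε : ℝ, 0 < ε → ∃ C' : ℝ, ∀ x, P x → h x ≤ (1 + ε) * r x + C' := by
  intro ε hε
  obtain ⟨C', hC'⟩ := H (ε / ((1 + ε) * N)) (by positivity)
  refine ⟨(1 + ε) * ((3 + ε / ((1 + ε) * N)) * C + max C' 0), fun x hx => ?_⟩
  refine tr (N := N) (ε' := ε / ((1 + ε) * N)) hC (le_max_right _ _) hε (by positivity) ?_ (hh x)
    (hr x) ?_
  · have : (1 + ε) * N ≠ 0 := by positivity
    rw [div_mul_cancel₀ _ this]
  · rcases map x hx with h1 | ⟨y, h1, h2, h3⟩
    · exact Or.inl h1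
    · exact Or.inr ⟨_, _, h2, h3, (hC' y h1).trans (by linarith [le_max_left C' 0])⟩

variable {K : Type} [Field K] [NumberField K]

/-- the primes at which `x` meets one of the cusps `∞`, `± √ c` -/
def IK (c x : K) : Set (HeightOneSpectrum (𝓞 K)) :=
  {p | 1 < FinitePlace.mk p x ∨ FinitePlace.mk p (x ^ 2 - c) < 1}

theorem finite_IK {c x : K} (h : x ^ 2 ≠ c) : (IK c x).Finite := by
  have h1 : {p : HeightOneSpectrum (𝓞 K) | 1 < FinitePlace.mk p x}.Finite := by
    by_cases hx : x = 0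
    · convert Set.finite_empty
      ext p
      simp [hx, zero_le_one]
    · exact (finite_ne_one hx).subset fun p hp => ne_of_gt hp
  exact h1.union (finite_lows (sub_ne_zero.2 h))

/-- the inequality on the twisted line, for `x` close to `∞` at the places of `S` -/
def TW (c : K) (S : Finset (Pl K)) (δ : ℝ) : Prop :=
  ∀ ε : ℝ, 0 < ε → ∃ C : ℝ, ∀ x : K, (x ^ 2 ≠ c ∧ ∀ v ∈ S, 1 ≤ δ * av v x) →
    D x ≤ (1 + ε) * W (IK c x) + C

/-- the same for some `δ` -/
def TWn (c : K) (S : Finset (Pl K)) : Prop := ∃ δ : ℝ, 0 < δ ∧ TW c S δ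

/-- the abc inequality for points close to the cusp `0` -/
def ABn (S : Finset (Pl K)) : Prop :=
  ∃ δ : ℝ, 0 < δ ∧ ∀ ε : ℝ, 0 < ε → ∃ C : ℝ, ∀ y : K, (y ≠ 0 ∧ y ≠ 1 ∧ ∀ v ∈ S, av v y < δ) →
    D y ≤ (1 + ε) * R y + C

/-- the abc inequality -/
def ABC (K : Type) [Field K] [NumberField K] : Prop :=
  ∀ ε : ℝ, 0 < ε → ∃ C : ℝ, ∀ y : K, (y ≠ 0 ∧ y ≠ 1) → D y ≤ (1 + ε) * R y + C

/-- closeness to `∞`: from one place to finitely many -/
theorem near_all {P : K → Prop} {f : K → K} (S : Finset (Pl K))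
    (h : ∀ v ∈ S, ∀ B : ℝ, 0 < B → ∃ R : ℝ, ∀ x, P x → R ≤ av v x → B ≤ av v (f x))
    {δ : ℝ} (hδ : 0 < δ) :
    ∃ δ' : ℝ, 0 < δ' ∧ ∀ x, P x → (∀ v ∈ S, 1 ≤ δ' * av v x) → ∀ v ∈ S, 1 ≤ δ * av v (f x) := by
  classical
  have h' : ∀ v : Pl K, ∃ R : ℝ, v ∈ S → ∀ x, P x → R ≤ av v x → δ⁻¹ ≤ av v (f x) := by
    intro v
    by_cases hv : v ∈ S
    · obtain ⟨R, hR⟩ := h v hv δ⁻¹ (by positivity)
      exact ⟨R, fun _ => hR⟩
    · exact ⟨0, fun h => absurd h hv⟩
  choose R hR using h'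
  set T : ℝ := ∑ v ∈ S, |R v| + 1 with hT
  have hT0 : 0 < T := by have : 0 ≤ ∑ v ∈ S, |R v| := Finset.sum_nonneg fun v _ => abs_nonneg _; linarith
  refine ⟨T⁻¹, by positivity, fun x hx hn v hv => ?_⟩
  have h1 : R v ≤ av v x := by
    have h2 := hn v hv
    have h3 : T ≤ av v x := by
      rw [inv_mul_eq_div, le_div_iff₀ hT0, one_mul] at h2
      exact h2
    have h4 : |R v| ≤ ∑ v ∈ S, |R v| := Finset.single_le_sum (f := fun v => |R v|)
      (fun v _ => abs_nonneg _) hv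
    linarith [le_abs_self (R v)]
  have h5 := hR v hv x hx h1
  rwa [inv_le_iff_one_le_mul₀ hδ, mul_comm] at h5

/-- scaling -/
theorem TWn_scale {c z : K} (hz : z ≠ 0) (S : Finset (Pl K)) (h : TWn (z ^ 2 * c) S) : TWn c S := by
  obtain ⟨δ, hδ, h⟩ := h
  obtain ⟨δ', hδ', hn⟩ := near_all (P := fun _ : K => True) (f := fun x => z * x) S (fun v _ B hB => by
    refine ⟨B / av v z, fun x _ hx => ?_⟩
    have hz' : 0 < av v z := (av v).pos hz
    rw [map_mul]
    rw [div_le_iff₀ hz'] at hx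
    linarith) hδ
  have hfin := finite_ne_one hz
  refine ⟨δ', hδ', step (h := D) (r := fun x => W (IK c x)) (N := 1)
    (C := D z + W {p : HeightOneSpectrum (𝓞 K) | FinitePlace.mk p z ≠ 1}) D_nonneg
    (fun x => W_nonneg _) le_rfl (add_nonneg (D_nonneg _) (W_nonneg _)) ?_ h⟩
  rintro x ⟨h1, h2⟩
  right
  have h1' : (z * x) ^ 2 ≠ z ^ 2 * c := by
    intro h3
    apply h1
    have : z ^ 2 * x ^ 2 = z ^ 2 * c := by rw [← h3]; ring
    exact mul_left_cancel₀ (pow_ne_zero 2 hz) this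
  refine ⟨z * x, ⟨h1', hn x trivial h2⟩, ?_, ?_⟩
  · have e1 : D x ≤ D (z⁻¹) + D (z * x) := by
      conv_lhs => rw [show x = z⁻¹ * (z * x) by field_simp]
      exact logHeight₁_mul_le _ _
    rw [D_inv] at e1
    have := W_nonneg {p : HeightOneSpectrum (𝓞 K) | FinitePlace.mk p z ≠ 1}
    linarith
  · have hsub : IK (z ^ 2 * c) (z * x) ⊆
        IK c x ∪ {p : HeightOneSpectrum (𝓞 K) | FinitePlace.mk p z ≠ 1} := by
      intro p hp
      by_cases hpz : FinitePlace.mk p z = 1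
      · left
        rcases hp with h3 | h3
        · left
          rwa [map_mul, hpz, one_mul] at h3
        · right
          have e2 : (z * x) ^ 2 - z ^ 2 * c = z ^ 2 * (x ^ 2 - c) := by ring
          rwa [e2, map_mul, map_pow, hpz, one_pow, one_mul] at h3
      · exact Or.inr hpz
    have h3 := W_mono hsub ((finite_IK h1).union hfin)
    have h4 := W_union (finite_IK h1) hfin
    have h5 := D_nonneg z
    have e : (1 : ℝ) - 1 = 0 := by norm_num
    rw [e, zero_mul, add_zero]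
    linarith

/-- `|F(x) / G(x)|` is large if `|x|` is large -/
theorem near_ratio (v : Pl K) {F G : ℤ[X]} {N : ℕ} (hN : 1 ≤ N) (hF : F.natDegree ≤ N)
    (hG : G.natDegree ≤ N - 1) (ha : F.coeff N ≠ 0) (B : ℝ) (hB : 0 < B) :
    ∃ R : ℝ, ∀ x : K, aeval x G ≠ 0 → R ≤ av v x → B ≤ av v (aeval x F / aeval x G) := by
  cases v with
  | inl w =>
    obtain ⟨R, hR1, hR⟩ := inf_top hF hN ha
    refine ⟨max R (2 * nrm G * B), fun x hG0 hx => ?_⟩
    have hx1 : R ≤ w x := (le_max_left _ _).trans hx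
    have hx2 : 2 * nrm G * B ≤ w x := (le_max_right _ _).trans hx
    have h1 := hR K w x hx1
    have hGp : 0 < w (aeval x G) := w.pos_iff.2 hG0
    have hxp : 1 ≤ w x := hR1.trans hx1
    have h2 : w (aeval x G) ≤ nrm G * w x ^ (N - 1) := by
      refine (inf_aeval_le w x G).trans ?_
      rw [max_eq_right hxp]
      exact mul_le_mul_of_nonneg_left (pow_le_pow_right₀ hxp hG) (nrm_pos G).le
    rw [av_inl, map_div₀, le_div_iff₀ hGp]
    have h3 : w x ^ N = w x * w x ^ (N - 1) := by rw [← pow_succ', Nat.sub_add_cancel hN]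
    have h4 : 0 < w x ^ (N - 1) := by positivity
    calc B * w (aeval x G) ≤ B * (nrm G * w x ^ (N - 1)) := mul_le_mul_of_nonneg_left h2 hB.le
      _ = (2 * nrm G * B) * w x ^ (N - 1) / 2 := by ring
      _ ≤ w x * w x ^ (N - 1) / 2 := by
          have := mul_le_mul_of_nonneg_right hx2 h4.le
          linarith
      _ = w x ^ N / 2 := by rw [h3]
      _ ≤ _ := h1
  | inr p =>
    have haK : ((F.coeff N : ℤ) : K) ≠ 0 := by exact_mod_cast ha
    have hap : 0 < FinitePlace.mk p ((F.coeff N : ℤ) : K) := FinitePlace.pos_iff.2 haK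
    refine ⟨2 + (B + 2) / FinitePlace.mk p ((F.coeff N : ℤ) : K), fun x hG0 hx => ?_⟩
    rw [av_inr] at hx
    have hq : 0 < (B + 2) / FinitePlace.mk p ((F.coeff N : ℤ) : K) := by positivity
    have hx1 : 1 < FinitePlace.mk p x := by linarith
    have hx2 : B + 2 ≤ FinitePlace.mk p ((F.coeff N : ℤ) : K) * FinitePlace.mk p x := by
      have : (B + 2) / FinitePlace.mk p ((F.coeff N : ℤ) : K) ≤ FinitePlace.mk p x := by linarith
      rw [div_le_iff₀ hap] at this
      linarith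
    have h1 := fin_top hF hN p hx1 (by linarith)
    have hGp : 0 < FinitePlace.mk p (aeval x G) := FinitePlace.pos_iff.2 hG0
    have h2 : FinitePlace.mk p (aeval x G) ≤ FinitePlace.mk p x ^ (N - 1) := by
      refine (fin_aeval_le p x G).trans ?_
      rw [max_eq_right hx1.le]
      exact pow_le_pow_right₀ hx1.le hG
    rw [av_inr, map_div₀, le_div_iff₀ hGp]
    have h3 : FinitePlace.mk p x ^ N = FinitePlace.mk p x * FinitePlace.mk p x ^ (N - 1) := by
      rw [← pow_succ', Nat.sub_add_cancel hN]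
    have h4 : 0 < FinitePlace.mk p x ^ (N - 1) := by positivity
    calc B * FinitePlace.mk p (aeval x G) ≤ B * FinitePlace.mk p x ^ (N - 1) :=
          mul_le_mul_of_nonneg_left h2 hB.le
      _ ≤ (FinitePlace.mk p ((F.coeff N : ℤ) : K) * FinitePlace.mk p x) *
          FinitePlace.mk p x ^ (N - 1) := mul_le_mul_of_nonneg_right (by linarith) h4.le
      _ = FinitePlace.mk p ((F.coeff N : ℤ) : K) * FinitePlace.mk p x ^ N := by rw [h3]; ring
      _ ≤ _ := h1

theorem finite_intCast_ne_one {n : ℤ} (hn : n ≠ 0) :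
    {p : HeightOneSpectrum (𝓞 K) | FinitePlace.mk p ((n : ℤ) : K) ≠ 1}.Finite :=
  finite_ne_one (by exact_mod_cast hn)

/-- the roots of a polynomial have bounded height -/
theorem roots_bdd {V : ℤ[X]} (hV : V ≠ 0) : ∃ C : ℝ, 0 ≤ C ∧ ∀ x : K, aeval x V = 0 → D x ≤ C := by
  classical
  have hV' : V.map (algebraMap ℤ K) ≠ 0 := by
    rw [Ne, Polynomial.map_eq_zero_iff]
    · exact hV
    · exact (algebraMap ℤ K).injective_int
  have hfin : {x : K | aeval x V = 0}.Finite := by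
    refine (V.map (algebraMap ℤ K)).rootSet_finite K |>.subset fun x hx => ?_
    rw [mem_rootSet]
    refine ⟨hV', ?_⟩
    rw [aeval_map_algebraMap]
    exact hx
  obtain ⟨C, hC⟩ := (hfin.image D).bddAbove
  exact ⟨max C 0, le_max_right _ _, fun x hx => (hC ⟨x, hx, rfl⟩).trans (le_max_left _ _)⟩

/-- **The cover of degree `κ + 2 e`.** -/
theorem TWn_cover {m : ℤ} (hm : m ≠ 0) {t e : ℕ} (he : 1 ≤ e) (S : Finset (Pl K)) {a : ℤ}
    (ha : a ∣ m ^ 2) {c : ℤ}
    (hQ : ∀ x : K, aeval x (QP m (2 * t + 1) e) = a * (x ^ 2 - c))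
    (h : TWn ((m : ℤ) : K) S) : TWn ((c : ℤ) : K) S := by
  obtain ⟨δ, hδ, h⟩ := h
  have ha0 : a ≠ 0 := fun h0 => pow_ne_zero 2 hm (by rw [h0] at ha; exact zero_dvd_iff.1 ha)
  set N : ℕ := 2 * t + 1 + 2 * e with hN
  have hN1 : 1 ≤ N := by omega
  obtain ⟨dF, dV, cF⟩ := FV_degree m (κ := 2 * t + 1) (by omega) he
  have dG := GP_degree m t e
  have dG' : (GP m t e).natDegree ≤ N - 1 := by omega
  have cF0 : (FP m (2 * t + 1) e).coeff N ≠ 0 := by
    intro h0
    rw [← hN, h0, mul_zero] at cF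
    have h1 : (2 * (e : ℤ) - ((2 * t + 1 : ℕ) : ℤ)) ≠ 0 := by push_cast; omega
    exact mul_ne_zero (pow_ne_zero _ two_ne_zero) (pow_ne_zero _ h1) cF.symm
  have hV0 : VP m (2 * t + 1) e ≠ 0 := by
    intro h0
    have h1 := FGV m t e
    rw [h0] at h1
    have h2 : FP m (2 * t + 1) e ^ 2 = C m * GP m t e ^ 2 := by linear_combination h1
    have h3 : (FP m (2 * t + 1) e ^ 2).coeff (N + N) = 0 := by
      rw [h2, coeff_C_mul]
      have : (GP m t e ^ 2).natDegree < N + N := by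
        have := natDegree_pow_le_of_le 2 dG'
        omega
      rw [coeff_eq_zero_of_natDegree_lt this, mul_zero]
    rw [sq, coeff_mul_add_eq_of_natDegree_le dF dF] at h3
    exact mul_ne_zero cF0 cF0 h3
  obtain ⟨A, B, c₀, hc₀, hAB⟩ := cop_FG hm (t := t) he
  obtain ⟨C1, hC1, hge⟩ := D_ratio_ge dF hN1 cF0 hc₀ hAB
  obtain ⟨C2, hC2, hroots⟩ := roots_bdd (K := K) hV0
  obtain ⟨δ', hδ', hn⟩ := near_all (P := fun x : K => aeval x (GP m t e) ≠ 0)
    (f := fun x => aeval x (FP m (2 * t + 1) e) / aeval x (GP m t e)) S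
    (fun v _ B hB => near_ratio v hN1 dF dG' cF0 B hB) hδ
  have hfm := finite_intCast_ne_one (K := K) hm
  have hd := dg_pos (K := K)
  set Cm : ℝ := W {p : HeightOneSpectrum (𝓞 K) | FinitePlace.mk p ((m : ℤ) : K) ≠ 1} with hCm
  have hCm0 : 0 ≤ Cm := W_nonneg _
  set C : ℝ := C1 * dg K + C2 + Cm + Real.log (nrm (VP m (2 * t + 1) e)) * dg K with hC
  have hln : 0 ≤ Real.log (nrm (VP m (2 * t + 1) e)) * dg K := mul_nonneg (log_nrm_nonneg _) hd.le
  have hC1d : 0 ≤ C1 * dg K := by positivity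
  obtain ⟨V₁, hV₁⟩ := eval_VP_dvd (S := K) m (κ := 2 * t + 1) (by omega) he
  refine ⟨δ', hδ', step (h := D) (r := fun x => W (IK ((c : ℤ) : K) x)) (N := (N : ℝ)) (C := C)
    D_nonneg (fun x => W_nonneg _) (by exact_mod_cast hN1) (by positivity) ?_ h⟩
  rintro x ⟨h1, h2⟩
  by_cases hVx : aeval x (VP m (2 * t + 1) e) = 0
  · left
    have := hroots x hVx
    linarith
  right
  have hmK : ((m : ℤ) : K) ≠ 0 := by exact_mod_cast hm
  have haK : ((a : ℤ) : K) ≠ 0 := by exact_mod_cast ha0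
  have hQx : aeval x (QP m (2 * t + 1) e) ≠ 0 := by
    rw [hQ]; exact mul_ne_zero haK (sub_ne_zero.2 h1)
  have hGe : aeval x (GP m t e) = ((m : ℤ) : K) ^ t * aeval x (QP m (2 * t + 1) e) ^ e := by
    unfold GP
    rw [map_mul, aeval_C, map_pow]
    simp
  have hGx : aeval x (GP m t e) ≠ 0 := by
    rw [hGe]; exact mul_ne_zero (pow_ne_zero _ hmK) (pow_ne_zero _ hQx)
  have hFGV := eval_FGV m t e x
  have hxm : x ^ 2 - (m : K) ≠ 0 := by
    intro h0
    apply hVx
    rw [hV₁, h0, zero_mul]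
  set F := aeval x (FP m (2 * t + 1) e) with hF
  set G := aeval x (GP m t e) with hG
  set V := aeval x (VP m (2 * t + 1) e) with hV
  have hy : (F / G) ^ 2 - (m : K) = (x ^ 2 - m) * V ^ 2 / G ^ 2 := by
    rw [← hFGV]; field_simp
  refine ⟨F / G, ⟨?_, hn x hGx h2⟩, ?_, ?_⟩
  · rw [← sub_ne_zero, hy]
    exact div_ne_zero (mul_ne_zero hxm (pow_ne_zero _ hVx)) (pow_ne_zero _ hGx)
  · have := hge K x hGx
    linarith
  · have hsub : IK ((m : ℤ) : K) (F / G) ⊆ IK ((c : ℤ) : K) x ∪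
        (lows V ∪ {p : HeightOneSpectrum (𝓞 K) | FinitePlace.mk p ((m : ℤ) : K) ≠ 1}) := by
      intro p hp
      by_cases hpm : FinitePlace.mk p ((m : ℤ) : K) = 1
      swap
      · exact Or.inr (Or.inr hpm)
      by_cases hpc : p ∈ IK ((c : ℤ) : K) x
      · exact Or.inl hpc
      right; left
      simp only [IK, Set.mem_ofPred_eq, not_or, not_lt] at hpc
      obtain ⟨hx1, hxc⟩ := hpc
      have hpa : FinitePlace.mk p ((a : ℤ) : K) = 1 := by
        obtain ⟨b, hb⟩ := ha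
        have h3 : FinitePlace.mk p ((a : ℤ) : K) * FinitePlace.mk p ((b : ℤ) : K) = 1 := by
          rw [← map_mul, ← Int.cast_mul, ← hb, Int.cast_pow, map_pow, hpm, one_pow]
        have h4 := fin_intCast_le (K := K) p a
        have h5 := fin_intCast_le (K := K) p b
        have h6 : 0 ≤ FinitePlace.mk p ((a : ℤ) : K) := apply_nonneg _ _
        refine le_antisymm h4 ?_
        nlinarith
      have hmax : max 1 (FinitePlace.mk p x) = 1 := max_eq_left hx1
      have hint : ∀ P : ℤ[X], FinitePlace.mk p (aeval x P) ≤ 1 := by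
        intro P
        have := fin_aeval_le p x P
        rwa [hmax, one_pow] at this
      have hxc1 : FinitePlace.mk p (x ^ 2 - ((c : ℤ) : K)) = 1 := by
        refine le_antisymm ?_ hxc
        have := hint (X ^ 2 - Polynomial.C c)
        simpa using this
      have hG1 : FinitePlace.mk p G = 1 := by
        rw [hGe, map_mul, map_pow, map_pow, hQ, map_mul, hpa, hxc1, hpm]
        simp
      have hF1 : FinitePlace.mk p F ≤ 1 := hint _
      have hV1 : FinitePlace.mk p V ≤ 1 := hint _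
      have hm1 : FinitePlace.mk p (x ^ 2 - (m : K)) ≤ 1 := by
        have := hint (X ^ 2 - Polynomial.C m)
        simpa using this
      have hVV := hV₁ x
      rcases hp with h3 | h3
      · rw [map_div₀, hG1, div_one] at h3
        linarith
      · rw [hy, map_div₀, map_pow, hG1, one_pow, div_one, map_mul, map_pow] at h3
        change FinitePlace.mk p V < 1
        by_contra hcon
        have hV2 : FinitePlace.mk p V = 1 := le_antisymm hV1 (not_lt.1 hcon)
        rw [hV2, one_pow, mul_one] at h3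
        rw [hV, hVV, map_mul] at hV2
        have h4 := hint V₁
        have h5 : 0 ≤ FinitePlace.mk p (aeval x V₁) := apply_nonneg _ _
        have h6 : 0 ≤ FinitePlace.mk p (x ^ 2 - (m : K)) := apply_nonneg _ _
        nlinarith
    have f1 := finite_IK h1
    have f2 := finite_lows hVx
    have h3 := W_mono hsub (f1.union (f2.union hfm))
    have h4 := W_union f1 (f2.union hfm)
    have h5 := W_union f2 hfm
    have h6 := W_lows_le hVx
    have h7 := D_aeval_le x (VP m (2 * t + 1) e)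
    have h8 : ((VP m (2 * t + 1) e).natDegree : ℝ) * D x ≤ ((N : ℝ) - 1) * D x := by
      refine mul_le_mul_of_nonneg_right ?_ (D_nonneg x)
      have : (((VP m (2 * t + 1) e).natDegree : ℕ) : ℝ) ≤ ((N - 1 : ℕ) : ℝ) := by exact_mod_cast dV
      rwa [Nat.cast_sub hN1, Nat.cast_one] at this
    rw [hC]
    linarith

end Pool.Agent.N757.TL
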